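import Pool.Agent.V8H47.MG.Inj
import Pool.Agent.V8H47.RD.FF

set_option autoImplicit false

/-! Groups of type FP all of whose finitely generated projective modules are stably free. -/

namespace Pool.Agent.V8H47.MG

open Matrix TH57.Thr TH57.FF Pool.Agent.V8H47.RD

section FRes

variable {R : Type} [Ring R]

theorem FR_prod : ∀ (n : ℕ) (M : Type) [AddCommGroup M] [Module R M] (a : ℕ), FR R n M →
    FR R n (M × (Fin a → R))
  | 0, M, _, _, a, h => by
    obtain ⟨h1, h2⟩ := h
    exact ⟨inferInstance, inferInstance⟩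
  | n + 1, M, _, _, a, h => by
    obtain ⟨ι, i1, f, hf, h1⟩ := h
    let f' : (ι ⊕ Fin a → R) →ₗ[R] M × (Fin a → R) :=
      LinearMap.prod (f ∘ₗ LinearMap.funLeft R R Sum.inl) (LinearMap.funLeft R R Sum.inr)
    have hf1 : ∀ x, f' x = (f (x ∘ Sum.inl), x ∘ Sum.inr) := fun x => rfl
    refine ⟨ι ⊕ Fin a, inferInstance, f', ?_, ?_⟩
    · rintro ⟨m, y⟩
      obtain ⟨x, hx⟩ := hf m
      refine ⟨Sum.elim x y, ?_⟩
      rw [hf1]
      exact Prod.ext hx rfl
    · let g : LinearMap.ker f →ₗ[R] LinearMap.ker f' :=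
        { toFun := fun x => ⟨Sum.elim x.1 0, by
            rw [LinearMap.mem_ker, hf1]
            exact Prod.ext (LinearMap.mem_ker.1 x.2) rfl⟩
          map_add' := by
            intro x y
            apply Subtype.ext
            funext i
            rcases i with i | i
            · rfl
            · exact (add_zero (0 : R)).symm
          map_smul' := by
            intro c x
            apply Subtype.ext
            funext i
            rcases i with i | i
            · rfl
            · exact (mul_zero c).symm }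
      have hg : Function.Bijective g := by
        constructor
        · intro x y hxy
          apply Subtype.ext
          funext i
          exact congrFun (congrArg Subtype.val hxy) (Sum.inl i)
        · rintro ⟨x, hx⟩
          rw [LinearMap.mem_ker, hf1] at hx
          have hx1 : f (x ∘ Sum.inl) = 0 := congrArg Prod.fst hx
          have hx2 : x ∘ Sum.inr = 0 := congrArg Prod.snd hx
          refine ⟨⟨x ∘ Sum.inl, LinearMap.mem_ker.2 hx1⟩, ?_⟩
          apply Subtype.ext
          funext i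
          rcases i with i | i
          · rfl
          · exact (congrFun hx2 i).symm
      exact FR_equiv n (LinearEquiv.ofBijective g hg) h1

/-- a stably free module mapping onto `M` -/
theorem FR_onto (n : ℕ) {P M : Type} [AddCommGroup P] [Module R P] [AddCommGroup M] [Module R M]
    (hP : StF R P) (g : P →ₗ[R] M) (hg : Function.Surjective g) (h : FR R n (LinearMap.ker g)) :
    FR R (n + 1) M := by
  obtain ⟨a, b, ⟨e⟩⟩ := hP
  obtain ⟨f, hf⟩ : ∃ f : (Fin b → R) →ₗ[R] M,
    f = g ∘ₗ LinearMap.fst R P (Fin a → R) ∘ₗ e.symm.toLinearMap := ⟨_, rfl⟩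
  have hf1 : ∀ x, f x = g (e.symm x).1 := fun x => by rw [hf]; rfl
  refine ⟨Fin b, inferInstance, f, ?_, ?_⟩
  · intro m
    obtain ⟨p, hp⟩ := hg m
    refine ⟨e (p, 0), ?_⟩
    rw [hf1, LinearEquiv.symm_apply_apply]
    exact hp
  · let k : (LinearMap.ker g × (Fin a → R)) →ₗ[R] LinearMap.ker f :=
      { toFun := fun x => ⟨e (x.1.1, x.2), by
          rw [LinearMap.mem_ker, hf1, LinearEquiv.symm_apply_apply]
          exact LinearMap.mem_ker.1 x.1.2⟩
        map_add' := by
          intro x y
          apply Subtype.ext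
          exact map_add e (x.1.1, x.2) (y.1.1, y.2)
        map_smul' := by
          intro c x
          apply Subtype.ext
          exact map_smul e c (x.1.1, x.2) }
    have hk : Function.Bijective k := by
      constructor
      · intro x y hxy
        have h1 : e (x.1.1, x.2) = e (y.1.1, y.2) := congrArg Subtype.val hxy
        have h2 := e.injective h1
        exact Prod.ext (Subtype.ext (Prod.ext_iff.1 h2).1) (Prod.ext_iff.1 h2).2
      · rintro ⟨x, hx⟩
        rw [LinearMap.mem_ker, hf1] at hx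
        refine ⟨(⟨(e.symm x).1, LinearMap.mem_ker.2 hx⟩, (e.symm x).2), ?_⟩
        apply Subtype.ext
        change e ((e.symm x).1, (e.symm x).2) = x
        exact e.apply_symm_apply x
    exact FR_equiv n (LinearEquiv.ofBijective k hk) (FR_prod n _ a h)

theorem FR_finite : ∀ (n : ℕ) (M : Type) [AddCommGroup M] [Module R M], FR R n M →
    Module.Finite R M
  | 0, _, _, _, h => h.1
  | _ + 1, _, _, _, h => by
    obtain ⟨ι, i1, f, hf, -⟩ := h
    exact Module.Finite.of_surjective f hf

/-- exact sequences of stably free modules -/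
theorem FR_chain (P : ℕ → Type) [∀ i, AddCommGroup (P i)] [∀ i, Module R (P i)]
    (d : ∀ i, P (i + 1) →ₗ[R] P i) (n : ℕ) (hst : ∀ i, StF R (P i))
    (hz : ∀ i, n < i → Subsingleton (P i))
    (hex : ∀ i, LinearMap.range (d (i + 1)) = LinearMap.ker (d i)) :
    ∀ j i : ℕ, n ≤ i + j → ∃ N, FR R N (LinearMap.range (d i)) := by
  intro j
  induction j with
  | zero =>
    intro i hi
    have h1 : Subsingleton (P (i + 1)) := hz (i + 1) (by omega)
    have h2 : Subsingleton (LinearMap.range (d i)) := by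
      refine ⟨fun x y => ?_⟩
      obtain ⟨x', hx⟩ := x.2
      obtain ⟨y', hy⟩ := y.2
      apply Subtype.ext
      rw [← hx, ← hy, Subsingleton.elim x' y']
    exact ⟨0, inferInstance, inferInstance⟩
  | succ j ih =>
    intro i hi
    obtain ⟨N, hN⟩ := ih (i + 1) (by omega)
    refine ⟨N + 1, FR_onto N (hst (i + 1)) (d i).rangeRestrict
      (LinearMap.surjective_rangeRestrict _) ?_⟩
    rw [LinearMap.ker_rangeRestrict, ← hex i]
    exact hN

end FRes

/-- type FP, as in the problem -/
def FP (G : Type) [Group G] : Prop :=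
  ∃ (P : ℕ → Type) (_ : ∀ i, AddCommGroup (P i)) (_ : ∀ i, Module (MonoidAlgebra ℤ G) (P i))
    (d : ∀ i, P (i + 1) →ₗ[MonoidAlgebra ℤ G] P i) (ε : P 0 →+ ℤ) (n : ℕ),
    (∀ i, Module.Finite (MonoidAlgebra ℤ G) (P i)) ∧
    (∀ i, Module.Projective (MonoidAlgebra ℤ G) (P i)) ∧
    (∀ i, n < i → Subsingleton (P i)) ∧
    (∀ (g : G) (x : P 0), ε (MonoidAlgebra.of ℤ G g • x) = ε x) ∧
    Function.Surjective ε ∧
    (∀ x : P 0, ε x = 0 ↔ x ∈ LinearMap.range (d 0)) ∧
    (∀ i, LinearMap.range (d (i + 1)) = LinearMap.ker (d i))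

/-- type FF, as in the problem -/
def FF (G : Type) [Group G] : Prop :=
  ∃ (P : ℕ → Type) (_ : ∀ i, AddCommGroup (P i)) (_ : ∀ i, Module (MonoidAlgebra ℤ G) (P i))
    (d : ∀ i, P (i + 1) →ₗ[MonoidAlgebra ℤ G] P i) (ε : P 0 →+ ℤ) (n : ℕ),
    (∀ i, Module.Finite (MonoidAlgebra ℤ G) (P i)) ∧
    (∀ i, Module.Free (MonoidAlgebra ℤ G) (P i)) ∧
    (∀ i, n < i → Subsingleton (P i)) ∧
    (∀ (g : G) (x : P 0), ε (MonoidAlgebra.of ℤ G g • x) = ε x) ∧
    Function.Surjective ε ∧
    (∀ x : P 0, ε x = 0 ↔ x ∈ LinearMap.range (d 0)) ∧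
    (∀ i, LinearMap.range (d (i + 1)) = LinearMap.ker (d i))

theorem FF_of_FFle {G : Type} [Group G] {n : ℕ} (h : FFle G n) : FF G := by
  obtain ⟨P, i1, i2, d, ε, h1, h2, h3, h4, h5, h6, h7⟩ := h
  exact ⟨P, i1, i2, d, ε, n, h1, h2, h3, h4, h5, h6, h7⟩

theorem FF_of_FP {G : Type} [Group G] (hG : AllStF G) (h : FP G) : FF G := by
  obtain ⟨P, i1, i2, d, ε, n, h1, h2, h3, h4, h5, h6, h7⟩ := h
  let A := MonoidAlgebra ℤ G
  have hst : ∀ i, StF (MonoidAlgebra ℤ G) (P i) := fun i => hG (P i) (h1 i) (h2 i)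
  obtain ⟨N, hN⟩ := FR_chain P d n hst h3 h7 n 0 (by omega)
  obtain ⟨a, b, ⟨e⟩⟩ := hst 0
  let ε' : (Fin b → MonoidAlgebra ℤ G) →+ ℤ :=
    (ε.comp (AddMonoidHom.fst (P 0) (Fin a → MonoidAlgebra ℤ G))).comp
      e.symm.toLinearMap.toAddMonoidHom
  have hε' : ∀ x, ε' x = ε (e.symm x).1 := fun x => rfl
  let K : Submodule (MonoidAlgebra ℤ G) (Fin b → MonoidAlgebra ℤ G) :=
    Submodule.map e.toLinearMap ((LinearMap.range (d 0)).prod ⊤)
  have hK : ∀ x, x ∈ K ↔ ε' x = 0 := by
    intro x
    rw [hε', h6]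
    constructor
    · rintro ⟨y, hy, rfl⟩
      have h8 : e.symm (e.toLinearMap y) = y := e.symm_apply_apply y
      rw [h8]
      exact hy.1
    · intro h8
      exact ⟨e.symm x, ⟨h8, Submodule.mem_top⟩, e.apply_symm_apply x⟩
  have hKe : Nonempty ((LinearMap.range (d 0) × (Fin a → MonoidAlgebra ℤ G))
      ≃ₗ[MonoidAlgebra ℤ G] K) := by
    let k : (LinearMap.range (d 0) × (Fin a → MonoidAlgebra ℤ G)) →ₗ[MonoidAlgebra ℤ G] K :=
      { toFun := fun x => ⟨e (x.1.1, x.2), ⟨(x.1.1, x.2), ⟨x.1.2, Submodule.mem_top⟩, rfl⟩⟩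
        map_add' := by
          intro x y
          apply Subtype.ext
          exact map_add e (x.1.1, x.2) (y.1.1, y.2)
        map_smul' := by
          intro c x
          apply Subtype.ext
          exact map_smul e c (x.1.1, x.2) }
    refine ⟨LinearEquiv.ofBijective k ⟨?_, ?_⟩⟩
    · intro x y hxy
      have h8 : e (x.1.1, x.2) = e (y.1.1, y.2) := congrArg Subtype.val hxy
      have h9 := e.injective h8
      exact Prod.ext (Subtype.ext (Prod.ext_iff.1 h9).1) (Prod.ext_iff.1 h9).2
    · rintro ⟨x, ⟨y, hy, rfl⟩⟩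
      exact ⟨(⟨y.1, hy.1⟩, y.2), rfl⟩
  obtain ⟨ke⟩ := hKe
  have hFK : FR (MonoidAlgebra ℤ G) N K := FR_equiv N ke (FR_prod N _ a hN)
  have hfin : Module.Finite (MonoidAlgebra ℤ G) K := FR_finite N K hFK
  obtain ⟨m, f, hf⟩ := Module.Finite.exists_fin' (MonoidAlgebra ℤ G) K
  obtain ⟨Q, hQ⟩ := exists_matrix (K.subtype ∘ₗ f)
  have hIm : Im Q = K := by
    ext x
    constructor
    · rintro ⟨y, rfl⟩
      change y ᵥ* Q ∈ K
      rw [hQ]
      exact (f y).2
    · intro hx
      obtain ⟨y, hy⟩ := hf ⟨x, hx⟩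
      refine ⟨y, ?_⟩
      change y ᵥ* Q = x
      rw [hQ]
      exact congrArg Subtype.val hy
  have hBd : Bd G 0 Q := by
    refine ⟨ε', ?_, ?_, ?_⟩
    · intro g x
      rw [hε', hε', map_smul]
      exact h4 g _
    · intro z
      obtain ⟨p, hp⟩ := h5 z
      refine ⟨e (p, 0), ?_⟩
      rw [hε', LinearEquiv.symm_apply_apply]
      exact hp
    · intro x
      rw [← hK, ← hIm]
      rfl
  refine FF_of_FFle (FFle_of Q hBd N ?_)
  rw [hIm]
  exact hFK

/-! ### The two forms of the vanishing of the reduced class group -/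

/-- idempotent matrices over `ℤ` are equivalent to identity matrices -/
theorem int_idem {a : ℕ} (f : Matrix (Fin a) (Fin a) ℤ) (hf : f * f = f) :
    ∃ (r : ℕ) (P : Matrix (Fin a) (Fin r) ℤ) (Q : Matrix (Fin r) (Fin a) ℤ),
      P * Q = f ∧ Q * P = 1 := by
  let φ : LinearMap.range f.vecMulLinear ≃ₗ[ℤ]
      (Fin (Module.finrank ℤ (LinearMap.range f.vecMulLinear)) → ℤ) :=
    (Module.finBasis ℤ (LinearMap.range f.vecMulLinear)).equivFun
  obtain ⟨P, hP⟩ := exists_matrix (φ.toLinearMap ∘ₗ f.vecMulLinear.rangeRestrict)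
  obtain ⟨Q, hQ⟩ := exists_matrix ((LinearMap.range f.vecMulLinear).subtype ∘ₗ φ.symm.toLinearMap)
  refine ⟨_, P, Q, ?_, ?_⟩
  · apply eq_of_vecMul
    intro x
    rw [← Matrix.vecMul_vecMul, hQ, hP]
    change ((φ.symm (φ (f.vecMulLinear.rangeRestrict x)) : _) : Fin a → ℤ) = _
    rw [LinearEquiv.symm_apply_apply]
    rfl
  · apply eq_of_vecMul
    intro x
    rw [← Matrix.vecMul_vecMul, hP, hQ, Matrix.vecMul_one]
    change φ (f.vecMulLinear.rangeRestrict (φ.symm x).1) = x
    have h1 : f.vecMulLinear.rangeRestrict (φ.symm x).1 = φ.symm x :=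
      Subtype.ext (mem_range_idem hf (φ.symm x).2)
    rw [h1, LinearEquiv.apply_symm_apply]

theorem base_mul {R G : Type} [Ring R] [Group G] {ι κ μ : Type} [Fintype κ] (A : Matrix ι κ R)
    (B : Matrix κ μ R) : base G (A * B) = base G A * base G B := by
  have h1 : ∀ {α β : Type} (C : Matrix α β R), base G C
      = C.map (MonoidAlgebra.singleOneRingHom : R →+* MonoidAlgebra R G) := fun C => rfl
  rw [h1, h1, h1, Matrix.map_mul]

theorem base_one {R G : Type} [Ring R] [Group G] {κ : Type} [DecidableEq κ] :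
    base G (1 : Matrix κ κ R) = 1 := by
  have h1 : base G (1 : Matrix κ κ R)
      = (1 : Matrix κ κ R).map (MonoidAlgebra.singleOneRingHom : R →+* MonoidAlgebra R G) := rfl
  rw [h1, Matrix.map_one]
  · exact map_zero _
  · exact map_one _

theorem SF_of_fromBase {G : Type} [Group G] {n : ℕ}
    (E : Matrix (Fin n) (Fin n) (MonoidAlgebra ℤ G)) (hE : E * E = E) (h : FromBase E) :
    SF E := by
  obtain ⟨a, b, f, g, U, V, hf, hg, h1, h2⟩ := h
  obtain ⟨r, P, Q, hPQ, hQP⟩ := int_idem f hf
  obtain ⟨t, P', Q', hPQ', hQP'⟩ := int_idem g hg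
  let X : Matrix (Fin n ⊕ Fin a) (Fin n ⊕ Fin a) (MonoidAlgebra ℤ G) :=
    Matrix.fromBlocks E 0 0 (base G f)
  have hX : X * X = X := by
    change Matrix.fromBlocks E 0 0 (base G f) * Matrix.fromBlocks E 0 0 (base G f)
      = Matrix.fromBlocks E 0 0 (base G f)
    rw [Matrix.fromBlocks_multiply, hE, ← base_mul, hf]
    simp
  let DQ : Matrix (Fin n ⊕ Fin r) (Fin n ⊕ Fin a) (MonoidAlgebra ℤ G) :=
    Matrix.fromBlocks 1 0 0 (base G Q)
  let DP : Matrix (Fin n ⊕ Fin a) (Fin n ⊕ Fin r) (MonoidAlgebra ℤ G) :=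
    Matrix.fromBlocks 1 0 0 (base G P)
  have hUV : U * V = X := h1
  have hgg : base G g * base G g = base G g := by rw [← base_mul, hg]
  have hPg : base G P' * base G Q' = base G g := by rw [← base_mul, hPQ']
  have hQg : base G Q' * base G P' = 1 := by rw [← base_mul, hQP', base_one]
  have hXD : X * (DP * DQ) = X := by
    change Matrix.fromBlocks E 0 0 (base G f) * (Matrix.fromBlocks 1 0 0 (base G P) *
      Matrix.fromBlocks 1 0 0 (base G Q)) = Matrix.fromBlocks E 0 0 (base G f)
    rw [Matrix.fromBlocks_multiply, Matrix.fromBlocks_multiply, ← base_mul, hPQ]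
    simp only [Matrix.zero_mul, Matrix.mul_zero, add_zero, zero_add, Matrix.mul_one]
    rw [← base_mul, hf]
  have hDXD : DQ * X * DP = Matrix.fromBlocks E 0 0 1 := by
    change Matrix.fromBlocks 1 0 0 (base G Q) * Matrix.fromBlocks E 0 0 (base G f) *
      Matrix.fromBlocks 1 0 0 (base G P) = _
    rw [Matrix.fromBlocks_multiply, Matrix.fromBlocks_multiply]
    simp only [Matrix.zero_mul, Matrix.mul_zero, add_zero, zero_add, Matrix.mul_one,
      Matrix.one_mul]
    rw [← base_mul, ← base_mul, ← hPQ, ← Matrix.mul_assoc, hQP, Matrix.one_mul, hQP, base_one]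
  refine ⟨Fin r, Fin t, inferInstance, inferInstance, inferInstance, inferInstance,
    DQ * X * U * base G P', base G Q' * V * X * DP, ?_, ?_⟩
  · have h3 : DQ * X * U * base G P' * (base G Q' * V * X * DP)
        = DQ * X * U * (base G P' * base G Q') * V * X * DP := by
      simp only [Matrix.mul_assoc]
    have h4 : DQ * X * U * base G g * V * X * DP = DQ * (X * (U * V) * (U * V) * X) * DP := by
      rw [← h2]
      simp only [Matrix.mul_assoc]
    rw [h3, hPg, h4, hUV, hX, hX, hX]
    exact hDXD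
  · have h3 : base G Q' * V * X * DP * (DQ * X * U * base G P')
        = base G Q' * V * (X * (DP * DQ)) * X * U * base G P' := by
      simp only [Matrix.mul_assoc]
    have h4 : base G Q' * V * X * X * U * base G P'
        = base G Q' * (V * U) * (V * U) * (V * U) * base G P' := by
      have h5 : base G Q' * V * X * X * U * base G P' = base G Q' * V * (X * X) * U * base G P' := by
        simp only [Matrix.mul_assoc]
      rw [h5, ← hUV]
      simp only [Matrix.mul_assoc]
    rw [h3, hXD, h4, h2]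
    have h6 : base G Q' * base G g * base G g * base G g * base G P'
        = base G Q' * (base G g * base G g * base G g) * base G P' := by
      simp only [Matrix.mul_assoc]
    rw [h6, hgg, hgg, ← hPg]
    have h7 : base G Q' * (base G P' * base G Q') * base G P'
        = (base G Q' * base G P') * (base G Q' * base G P') := by
      simp only [Matrix.mul_assoc]
    rw [h7, hQg, Matrix.one_mul]

theorem fromBase_of_SF {R G : Type} [Ring R] [Group G] {n : ℕ}
    (E : Matrix (Fin n) (Fin n) (MonoidAlgebra R G)) (h : SF E) : FromBase E := by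
  obtain ⟨α, β, i1, i2, i3, i4, U, V, h1, h2⟩ := h
  let ea := Fintype.equivFin α
  let eb := Fintype.equivFin β
  let σ : Fin n ⊕ Fin (Fintype.card α) ≃ Fin n ⊕ α := Equiv.sumCongr (Equiv.refl _) ea.symm
  refine ⟨Fintype.card α, Fintype.card β, 1, 1, U.submatrix σ eb.symm, V.submatrix eb.symm σ,
    Matrix.mul_one _, Matrix.mul_one _, ?_, ?_⟩
  · rw [Matrix.submatrix_mul_equiv, h1, base_one]
    ext1 i j
    rcases i with i | i <;> rcases j with j | j
    · rfl
    · rfl
    · rfl
    · change (1 : Matrix α α (MonoidAlgebra R G)) (ea.symm i) (ea.symm j)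
        = (1 : Matrix (Fin (Fintype.card α)) (Fin (Fintype.card α)) (MonoidAlgebra R G)) i j
      rw [Matrix.one_apply, Matrix.one_apply]
      by_cases hij : i = j
      · rw [hij, if_pos rfl, if_pos rfl]
      · rw [if_neg hij, if_neg fun h => hij (ea.symm.injective h)]
  · rw [Matrix.submatrix_mul_equiv, h2, Matrix.submatrix_one_equiv, base_one]

/-- `K_0(ℤ) → K_0(ℤG)` is onto if and only if all finitely generated projective modules are stably
free -/
theorem onto_iff_allStF (G : Type) [Group G] : Onto ℤ G ↔ AllStF G := by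
  classical
  constructor
  · intro h P _ _ hfin hproj
    obtain ⟨n, f, hf⟩ := Module.Finite.exists_fin' (MonoidAlgebra ℤ G) P
    obtain ⟨g, hg⟩ := Module.projective_lifting_property f LinearMap.id hf
    have hg' : ∀ p, f (g p) = p := fun p => LinearMap.congr_fun hg p
    obtain ⟨E, hE⟩ := exists_matrix (g ∘ₗ f)
    have hEE : E * E = E := by
      apply eq_of_vecMul
      intro x
      rw [← Matrix.vecMul_vecMul, hE, hE]
      change g (f (g (f x))) = g (f x)
      rw [hg']
    have h1 := StF_of_SF E hEE (SF_of_fromBase E hEE (h n E hEE))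
    let k : P →ₗ[MonoidAlgebra ℤ G] LinearMap.range E.vecMulLinear :=
      LinearMap.codRestrict _ g fun p => ⟨g p, by
        change g p ᵥ* E = g p
        rw [hE]
        change g (f (g p)) = g p
        rw [hg']⟩
    have hk : Function.Bijective k := by
      constructor
      · intro x y hxy
        have h2 : g x = g y := congrArg Subtype.val hxy
        rw [← hg' x, h2, hg']
      · rintro ⟨_, ⟨y, rfl⟩⟩
        refine ⟨f y, Subtype.ext ?_⟩
        change g (f y) = y ᵥ* E
        rw [hE]
        rfl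
    exact StF_equiv (LinearEquiv.ofBijective k hk) h1
  · intro h n E hE
    obtain ⟨h1, h2⟩ := idem_projective E hE
    exact fromBase_of_SF E (SF_of_StF E hE (h _ h1 h2))

end Pool.Agent.V8H47.MG
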