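import Pool.Agent.V8H47.MG.TFree

set_option autoImplicit false

/-! Stably free modules over integral group rings and the space of marked groups. -/

namespace Pool.Agent.V8H47.MG

open Matrix TH57.Thr TH57.FF Pool.Agent.V8H47.RD Topology Filter

/-- matrices over `ℤF` which are to show that a projective module is stably free -/
structure Stab (F : Type) [Group F] (n : ℕ) where
  a : ℕ
  b : ℕ
  U : Matrix (Fin n ⊕ Fin a) (Fin b) (MonoidAlgebra ℤ F)
  V : Matrix (Fin b) (Fin n ⊕ Fin a) (MonoidAlgebra ℤ F)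

/-- the images of the matrices show that the module given by the image of `E` is stably free:
`E ⊕ 1 = U V`, `V U = 1` over `ℤG` -/
def Stab.Works {F G : Type} [Group F] [Group G] {n : ℕ} (q : Stab F n)
    (E : Matrix (Fin n) (Fin n) (MonoidAlgebra ℤ F)) (φ : F →* G) : Prop :=
  push φ q.U * push φ q.V = Matrix.fromBlocks (push φ E) 0 0 1 ∧ push φ q.V * push φ q.U = 1

/-- the uniform form -/
def UniformStF (C : GroupClass) : Prop :=
  ∀ (s n : ℕ) (E : Matrix (Fin n) (Fin n) (MonoidAlgebra ℤ (FreeGroup (Fin s)))),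
    ∃ (T : Finset (FreeGroup (Fin s))) (m : ℕ) (Q : Finset (Stab (FreeGroup (Fin s)) n)),
      ∀ (Γ : Type) (hΓ : Group Γ), C Γ hΓ → ∀ φ : FreeGroup (Fin s) →* Γ,
        push φ E * push φ E = push φ E → NoShortTorsion T m φ → ∃ q ∈ Q, q.Works E φ

theorem exists_stab {F : Type} [Group F] {n : ℕ} (q : Wit ℤ F n)
    (E : Matrix (Fin n) (Fin n) (MonoidAlgebra ℤ F)) :
    ∃ q' : Stab F n, ∀ (G : Type) (_ : Group G) (φ : F →* G),
      push φ E * push φ E = push φ E → q.Works E φ → q'.Works E φ := by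
  classical
  by_cases hfg : q.f * q.f = q.f ∧ q.g * q.g = q.g
  · obtain ⟨r, P, Q, hPQ, hQP⟩ := int_idem q.f hfg.1
    obtain ⟨t, P', Q', hPQ', hQP'⟩ := int_idem q.g hfg.2
    refine ⟨⟨r, t,
      (Matrix.fromBlocks (1 : Matrix (Fin n) (Fin n) (MonoidAlgebra ℤ F)) 0 0 (base F Q) :
          Matrix (Fin n ⊕ Fin r) (Fin n ⊕ Fin q.a) (MonoidAlgebra ℤ F))
        * (Matrix.fromBlocks E 0 0 (base F q.f) :
          Matrix (Fin n ⊕ Fin q.a) (Fin n ⊕ Fin q.a) (MonoidAlgebra ℤ F)) * q.U * base F P',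
      base F Q' * q.V * (Matrix.fromBlocks E 0 0 (base F q.f) :
          Matrix (Fin n ⊕ Fin q.a) (Fin n ⊕ Fin q.a) (MonoidAlgebra ℤ F))
        * (Matrix.fromBlocks (1 : Matrix (Fin n) (Fin n) (MonoidAlgebra ℤ F)) 0 0 (base F P) :
          Matrix (Fin n ⊕ Fin q.a) (Fin n ⊕ Fin r) (MonoidAlgebra ℤ F))⟩,
      fun G _ φ hE hw => ?_⟩
    obtain ⟨hf, hg, h1, h2⟩ := hw
    have h1' : push φ (1 : Matrix (Fin n) (Fin n) (MonoidAlgebra ℤ F)) = 1 := by
      rw [← base_one (R := ℤ), push_base, base_one]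
    unfold Stab.Works
    dsimp only
    simp only [push_mul, push_fromBlocks, push_zero, push_base, h1']
    have hUV : push φ q.U * push φ q.V = Matrix.fromBlocks (push φ E) 0 0 (base G q.f) := h1
    have hVU : push φ q.V * push φ q.U = base G q.g := h2
    generalize push φ q.U = U at hUV hVU ⊢
    generalize push φ q.V = V at hUV hVU ⊢
    generalize push φ E = E' at hUV hE ⊢
    obtain ⟨X, hXdef⟩ : ∃ X : Matrix (Fin n ⊕ Fin q.a) (Fin n ⊕ Fin q.a) (MonoidAlgebra ℤ G),
      X = Matrix.fromBlocks E' 0 0 (base G q.f) := ⟨_, rfl⟩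
    have hX : X * X = X := by
      rw [hXdef, Matrix.fromBlocks_multiply, hE, ← base_mul, hf]
      simp
    have hgg : base G q.g * base G q.g = base G q.g := by rw [← base_mul, hg]
    have hPg : base G P' * base G Q' = base G q.g := by rw [← base_mul, hPQ']
    have hQg : base G Q' * base G P' = 1 := by rw [← base_mul, hQP', base_one]
    obtain ⟨DP, hDP⟩ : ∃ DP : Matrix (Fin n ⊕ Fin q.a) (Fin n ⊕ Fin r) (MonoidAlgebra ℤ G),
      DP = Matrix.fromBlocks 1 0 0 (base G P) := ⟨_, rfl⟩
    obtain ⟨DQ, hDQ⟩ : ∃ DQ : Matrix (Fin n ⊕ Fin r) (Fin n ⊕ Fin q.a) (MonoidAlgebra ℤ G),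
      DQ = Matrix.fromBlocks 1 0 0 (base G Q) := ⟨_, rfl⟩
    have hXD : X * (DP * DQ) = X := by
      rw [hXdef, hDP, hDQ, Matrix.fromBlocks_multiply, Matrix.fromBlocks_multiply, ← base_mul, hPQ]
      simp only [Matrix.zero_mul, Matrix.mul_zero, add_zero, zero_add, Matrix.mul_one]
      rw [← base_mul, hf]
    have hDXD : DQ * X * DP = Matrix.fromBlocks E' 0 0 1 := by
      rw [hXdef, hDP, hDQ, Matrix.fromBlocks_multiply, Matrix.fromBlocks_multiply]
      simp only [Matrix.zero_mul, Matrix.mul_zero, add_zero, zero_add, Matrix.mul_one,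
        Matrix.one_mul]
      rw [← base_mul, ← base_mul, ← hPQ, ← Matrix.mul_assoc, hQP, Matrix.one_mul, hQP, base_one]
    rw [← hXdef, ← hDP, ← hDQ]
    rw [← hXdef] at hUV
    constructor
    · have h3 : DQ * X * U * base G P' * (base G Q' * V * X * DP)
          = DQ * X * U * (base G P' * base G Q') * V * X * DP := by
        simp only [Matrix.mul_assoc]
      have h4 : DQ * X * U * base G q.g * V * X * DP = DQ * (X * (U * V) * (U * V) * X) * DP := by
        rw [← hVU]
        simp only [Matrix.mul_assoc]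
      rw [h3, hPg, h4, hUV, hX, hX, hX]
      exact hDXD
    · have h3 : base G Q' * V * X * DP * (DQ * X * U * base G P')
          = base G Q' * V * (X * (DP * DQ)) * X * U * base G P' := by
        simp only [Matrix.mul_assoc]
      have h4 : base G Q' * V * X * X * U * base G P'
          = base G Q' * (V * U) * (V * U) * (V * U) * base G P' := by
        have h5 : base G Q' * V * X * X * U * base G P'
            = base G Q' * V * (X * X) * U * base G P' := by
          simp only [Matrix.mul_assoc]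
        rw [h5, ← hUV]
        simp only [Matrix.mul_assoc]
      rw [h3, hXD, h4, hVU]
      have h6 : base G Q' * base G q.g * base G q.g * base G q.g * base G P'
          = base G Q' * (base G q.g * base G q.g * base G q.g) * base G P' := by
        simp only [Matrix.mul_assoc]
      rw [h6, hgg, hgg, ← hPg]
      have h7 : base G Q' * (base G P' * base G Q') * base G P'
          = (base G Q' * base G P') * (base G Q' * base G P') := by
        simp only [Matrix.mul_assoc]
      rw [h7, hQg, Matrix.one_mul]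
  · exact ⟨⟨0, 0, 0, 0⟩, fun G _ φ _ hw => absurd ⟨hw.1, hw.2.1⟩ hfg⟩

theorem uniformStF_iff (C : GroupClass) : UniformStF C ↔ Uniform ℤ C := by
  classical
  constructor
  · intro h s n E
    obtain ⟨T, m, Q, hQ⟩ := h s n E
    refine ⟨T, m, Q.image fun q => (⟨q.a, q.b, 1, 1, q.U, q.V⟩ : Wit ℤ (FreeGroup (Fin s)) n),
      fun Γ hΓ hC φ hE hns => ?_⟩
    obtain ⟨q, hq, h1, h2⟩ := hQ Γ hΓ hC φ hE hns
    refine ⟨_, Finset.mem_image_of_mem _ hq, Matrix.mul_one _, Matrix.mul_one _, ?_, ?_⟩
    · change push φ q.U * push φ q.V = Matrix.fromBlocks (push φ E) 0 0 (base Γ 1)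
      rw [base_one]
      exact h1
    · change push φ q.V * push φ q.U = base Γ 1
      rw [base_one]
      exact h2
  · intro h s n E
    obtain ⟨T, m, Q, hQ⟩ := h s n E
    choose st hst using fun q : Wit ℤ (FreeGroup (Fin s)) n => exists_stab q E
    refine ⟨T, m, Q.image st, fun Γ hΓ hC φ hE hns => ?_⟩
    obtain ⟨q, hq, hw⟩ := hQ Γ hΓ hC φ hE hns
    exact ⟨st q, Finset.mem_image_of_mem _ hq, hst q Γ hΓ φ hE hw⟩

/-- the module given by the image of `E` over `ℤ[F/N]` is stably free -/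
def StFAt {s n : ℕ} (E : Matrix (Fin n) (Fin n) (MonoidAlgebra ℤ (FreeGroup (Fin s))))
    (N : Marked s) : Prop :=
  StF (MonoidAlgebra ℤ N.Grp) (LinearMap.range (push N.mk E).vecMulLinear)

theorem stFAt_iff {s n : ℕ} (E : Matrix (Fin n) (Fin n) (MonoidAlgebra ℤ (FreeGroup (Fin s))))
    (N : Marked s) (hE : push N.mk E * push N.mk E = push N.mk E) :
    StFAt E N ↔ FromBase (push N.mk E) :=
  ⟨fun h => fromBase_of_SF _ (SF_of_StF _ hE h), fun h => StF_of_SF _ hE (SF_of_fromBase _ hE h)⟩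

/-- the marked group of a counterexample embeds into the given group -/
theorem exists_counter_embedded {R : Type} [Ring R] {G : Type} [Group G] (hG : TorsionFree G)
    (h : ¬ Onto R G) :
    ∃ (s n : ℕ) (E : Matrix (Fin n) (Fin n) (MonoidAlgebra R (FreeGroup (Fin s))))
      (N : Marked s), Counter E N ∧ ∃ ψ : N.Grp →* G, Function.Injective ψ := by
  unfold Onto at h
  push Not at h
  obtain ⟨n, e, he, hfb⟩ := h
  obtain ⟨s, φ, E, rfl⟩ := exists_presentation e
  let N : Marked s := ⟨φ.ker, inferInstance⟩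
  let ψ : N.Grp →* G := QuotientGroup.kerLift φ
  have hψ : ψ.comp N.mk = φ := by
    ext1 x
    rfl
  have hinj : Function.Injective ψ := QuotientGroup.kerLift_injective φ
  refine ⟨s, n, E, N, ⟨?_, ?_, ?_⟩, ψ, hinj⟩
  · intro g k hk hg
    apply hinj
    rw [map_one]
    exact hG _ k hk (by rw [← map_pow, hg, map_one])
  · obtain ⟨D, hD⟩ := exists_pattern_idem E
    refine (hD _ _ _ _ N.mk φ fun w _ => ?_).2 he
    rw [N.mk_eq_one]
    exact MonoidHom.mem_ker
  · intro h1
    have h2 := h1.push ψ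
    rw [push_push, hψ] at h2
    exact hfb h2

end Pool.Agent.V8H47.MG
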