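import Pool.Agent.V8H47.MG.FP

set_option autoImplicit false

/-! Groups of type FP are torsion-free. -/

namespace Pool.Agent.V8H47.MG

open Matrix

variable {G : Type} [Group G]

/-- translation by a group element -/
noncomputable def tr (g : G) {M : Type} [AddCommGroup M] [Module (MonoidAlgebra ℤ G) M] (x : M) :
    M := MonoidAlgebra.of ℤ G g • x

section tr

variable {M : Type} [AddCommGroup M] [Module (MonoidAlgebra ℤ G) M]

theorem tr_tr (g g' : G) (x : M) : tr g (tr g' x) = tr (g * g') x := by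
  unfold tr
  rw [smul_smul, ← map_mul]

theorem tr_one (x : M) : tr (1 : G) x = x := by
  unfold tr
  rw [map_one, one_smul]

theorem tr_add (g : G) (x y : M) : tr g (x + y) = tr g x + tr g y := smul_add _ _ _

theorem tr_sub (g : G) (x y : M) : tr g (x - y) = tr g x - tr g y := smul_sub _ _ _

theorem tr_zero (g : G) : tr g (0 : M) = 0 := smul_zero _

theorem tr_sum (g : G) {ι : Type} (s : Finset ι) (f : ι → M) :
    tr g (∑ i ∈ s, f i) = ∑ i ∈ s, tr g (f i) := Finset.smul_sum

theorem map_tr {N : Type} [AddCommGroup N] [Module (MonoidAlgebra ℤ G) N]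
    (f : M →ₗ[MonoidAlgebra ℤ G] N) (g : G) (x : M) : f (tr g x) = tr g (f x) := map_smul f _ _

end tr

/-- the norm -/
noncomputable def nm (h : G) (k : ℕ) {M : Type} [AddCommGroup M] [Module (MonoidAlgebra ℤ G) M]
    (x : M) : M := ∑ j ∈ Finset.range k, tr (h ^ j) x

section nm

variable {M : Type} [AddCommGroup M] [Module (MonoidAlgebra ℤ G) M] {h : G} {k : ℕ}

theorem nm_shift (hk : h ^ k = 1) (x : M) :
    ∑ j ∈ Finset.range k, tr (h ^ (j + 1)) x = nm h k x := by
  have h1 := Finset.sum_range_succ (fun j => tr (h ^ j) x) k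
  have h2 := Finset.sum_range_succ' (fun j => tr (h ^ j) x) k
  rw [h1, hk, pow_zero] at h2
  exact (add_right_cancel h2).symm

theorem tr_nm (hk : h ^ k = 1) (x : M) : tr h (nm h k x) = nm h k x := by
  unfold nm
  rw [tr_sum]
  have h1 : ∀ j ∈ Finset.range k, tr h (tr (h ^ j) x) = tr (h ^ (j + 1)) x := by
    intro j _
    rw [tr_tr, ← pow_succ']
  rw [Finset.sum_congr rfl h1]
  exact nm_shift hk x

theorem nm_tr (hk : h ^ k = 1) (x : M) : nm h k (tr h x) = nm h k x := by
  unfold nm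
  have h1 : ∀ j ∈ Finset.range k, tr (h ^ j) (tr h x) = tr (h ^ (j + 1)) x := by
    intro j _
    rw [tr_tr, ← pow_succ]
  rw [Finset.sum_congr rfl h1]
  exact nm_shift hk x

theorem nm_add (x y : M) : nm h k (x + y) = nm h k x + nm h k y := by
  unfold nm
  rw [← Finset.sum_add_distrib]
  exact Finset.sum_congr rfl fun j _ => tr_add _ _ _

theorem nm_sub (x y : M) : nm h k (x - y) = nm h k x - nm h k y := by
  unfold nm
  rw [← Finset.sum_sub_distrib]
  exact Finset.sum_congr rfl fun j _ => tr_sub _ _ _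

theorem map_nm {N : Type} [AddCommGroup N] [Module (MonoidAlgebra ℤ G) N]
    (f : M →ₗ[MonoidAlgebra ℤ G] N) (x : M) : f (nm h k x) = nm h k (f x) := by
  unfold nm
  rw [map_sum]
  exact Finset.sum_congr rfl fun j _ => map_tr f _ _

theorem nm_inv (hk : h ^ k = 1) (x : M) :
    ∑ j ∈ Finset.range k, tr (h ^ j)⁻¹ x = nm h k x := by
  rw [← Finset.sum_range_reflect]
  rw [← nm_shift hk x]
  refine Finset.sum_congr rfl fun j hj => ?_
  have hj' := Finset.mem_range.1 hj
  have h1 : h ^ (k - 1 - j) * h ^ (j + 1) = 1 := by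
    rw [← pow_add]
    have h2 : k - 1 - j + (j + 1) = k := by omega
    rw [h2, hk]
  rw [inv_eq_of_mul_eq_one_right h1]

end nm

/-- the Tate cohomology of the cyclic group generated by `h` vanishes -/
def Ac (h : G) (k : ℕ) (M : Type) [AddCommGroup M] [Module (MonoidAlgebra ℤ G) M] : Prop :=
  (∀ x : M, tr h x = x → ∃ y, nm h k y = x) ∧ ∀ x : M, nm h k x = 0 → ∃ y, tr h y - y = x

theorem Ac_quot {B C : Type} [AddCommGroup B] [Module (MonoidAlgebra ℤ G) B] [AddCommGroup C]
    [Module (MonoidAlgebra ℤ G) C] {h : G} {k : ℕ} (hk : h ^ k = 1)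
    (f : B →ₗ[MonoidAlgebra ℤ G] C) (hf : Function.Surjective f)
    (hA : Ac h k (LinearMap.ker f)) (hB : Ac h k B) : Ac h k C := by
  have hsub : ∀ x : LinearMap.ker f, ((nm h k x : LinearMap.ker f) : B) = nm h k (x : B) :=
    fun x => map_nm (LinearMap.ker f).subtype x
  have hsub' : ∀ x : LinearMap.ker f, ((tr h x : LinearMap.ker f) : B) = tr h (x : B) :=
    fun x => map_tr (LinearMap.ker f).subtype h x
  constructor
  · intro c hc
    obtain ⟨b, rfl⟩ := hf c
    have h1 : tr h b - b ∈ LinearMap.ker f := by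
      rw [LinearMap.mem_ker, map_sub, map_tr, hc, sub_self]
    obtain ⟨a, ha⟩ := hA.2 ⟨tr h b - b, h1⟩ (by
      apply Subtype.ext
      rw [hsub]
      change nm h k (tr h b - b) = 0
      rw [nm_sub, nm_tr hk, sub_self])
    have h2 : tr h (a : B) - a = tr h b - b := by
      have h3 := congrArg Subtype.val ha
      rw [← hsub']
      exact h3
    have h3 : tr h (b - a) = b - a := by
      rw [tr_sub, sub_eq_sub_iff_sub_eq_sub]
      exact h2.symm
    obtain ⟨y, hy⟩ := hB.1 _ h3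
    refine ⟨f y, ?_⟩
    rw [← map_nm, hy, map_sub, LinearMap.mem_ker.1 a.2, sub_zero]
  · intro c hc
    obtain ⟨b, rfl⟩ := hf c
    rw [← map_nm] at hc
    obtain ⟨a, ha⟩ := hA.1 ⟨nm h k b, LinearMap.mem_ker.2 hc⟩ (by
      apply Subtype.ext
      rw [hsub']
      exact tr_nm hk b)
    have h2 : nm h k (b - a) = 0 := by
      have h3 := congrArg Subtype.val ha
      rw [hsub] at h3
      rw [nm_sub, h3]
      exact sub_self _
    obtain ⟨y, hy⟩ := hB.2 _ h2
    refine ⟨f y, ?_⟩
    rw [← map_tr, ← map_sub, hy, map_sub, LinearMap.mem_ker.1 a.2, sub_zero]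

/-- the identity is a norm of an additive map -/
def Th (h : G) (k : ℕ) (M : Type) [AddCommGroup M] [Module (MonoidAlgebra ℤ G) M] : Prop :=
  ∃ θ : M →+ M, ∀ x : M, ∑ j ∈ Finset.range k, tr (h ^ j) (θ (tr (h ^ j)⁻¹ x)) = x

theorem Ac_of_Th {M : Type} [AddCommGroup M] [Module (MonoidAlgebra ℤ G) M] {h : G} {k : ℕ}
    (hk : h ^ k = 1) (hT : Th h k M) : Ac h k M := by
  obtain ⟨θ, hθ⟩ := hT
  constructor
  · intro x hx
    have h1 : ∀ j : ℕ, tr (h ^ j) x = x := by
      intro j
      induction j with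
      | zero => rw [pow_zero, tr_one]
      | succ j ih => rw [pow_succ, ← tr_tr, hx, ih]
    have h2 : ∀ j : ℕ, tr (h ^ j)⁻¹ x = x := by
      intro j
      conv_lhs => rw [← h1 j]
      rw [tr_tr, inv_mul_cancel, tr_one]
    refine ⟨θ x, ?_⟩
    conv_rhs => rw [← hθ x]
    unfold nm
    refine Finset.sum_congr rfl fun j _ => ?_
    rw [h2]
  · intro x hx
    have h1 : ∑ j ∈ Finset.range k, θ (tr (h ^ j)⁻¹ x) = 0 := by
      rw [← map_sum, nm_inv hk, hx, map_zero]
    have h2 : ∀ (j : ℕ) (z : M),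
        tr h (∑ i ∈ Finset.range j, tr (h ^ i) z) - ∑ i ∈ Finset.range j, tr (h ^ i) z
          = tr (h ^ j) z - z := by
      intro j z
      have h3 : tr h (∑ i ∈ Finset.range j, tr (h ^ i) z)
          = ∑ i ∈ Finset.range j, tr (h ^ (i + 1)) z := by
        rw [tr_sum]
        refine Finset.sum_congr rfl fun i _ => ?_
        rw [tr_tr, ← pow_succ']
      rw [h3, ← Finset.sum_sub_distrib]
      refine (Finset.sum_range_sub (fun i => tr (h ^ i) z) j).trans ?_
      rw [pow_zero, tr_one]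
    refine ⟨∑ j ∈ Finset.range k, ∑ i ∈ Finset.range j, tr (h ^ i) (θ (tr (h ^ j)⁻¹ x)), ?_⟩
    rw [tr_sum, ← Finset.sum_sub_distrib]
    rw [Finset.sum_congr rfl fun j _ => h2 j _, Finset.sum_sub_distrib, hθ, h1, sub_zero]


/-! ### Projective modules -/

theorem Th_group {h : G} (hf : IsOfFinOrder h) : Th h (orderOf h) (MonoidAlgebra ℤ G) := by
  classical
  let S : Setoid G := QuotientGroup.rightRel (Subgroup.zpowers h)
  let ρ : G → G := fun g => (Quotient.mk S g).out
  have hρ : ∀ g, g * (ρ g)⁻¹ ∈ Subgroup.zpowers h := by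
    intro g
    have h1 : S.r (ρ g) g := Quotient.exact (Quotient.out_eq (Quotient.mk S g))
    exact QuotientGroup.rightRel_apply.1 h1
  have hρ2 : ∀ (j : ℕ) (g : G), ρ (h ^ j * g) = ρ g := by
    intro j g
    have h1 : Quotient.mk S (h ^ j * g) = Quotient.mk S g := by
      apply Quotient.sound
      refine QuotientGroup.rightRel_apply.2 ?_
      rw [_root_.mul_inv_rev, mul_inv_cancel_left]
      exact Subgroup.inv_mem _ (Subgroup.npow_mem_zpowers h j)
    change (Quotient.mk S (h ^ j * g)).out = (Quotient.mk S g).out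
    rw [h1]
  let θ : MonoidAlgebra ℤ G →+ MonoidAlgebra ℤ G :=
    { toFun := fun x => MonoidAlgebra.ofCoeff (x.coeff.filter fun g => ρ g = g)
      map_zero' := by
        ext g
        change (Finsupp.filter (fun g => ρ g = g) (0 : G →₀ ℤ)) g = 0
        rw [Finsupp.filter_zero]
        rfl
      map_add' := by
        intro x y
        ext g
        simp [Finsupp.filter_add] }
  have hθ : ∀ x g, (θ x).coeff g = if ρ g = g then x.coeff g else 0 := by
    intro x g
    change (x.coeff.filter fun g => ρ g = g) g = _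
    rw [Finsupp.filter_apply]
  have htr : ∀ (a : G) (x : MonoidAlgebra ℤ G) (g : G), (tr a x).coeff g = x.coeff (a⁻¹ * g) := by
    intro a x g
    change (MonoidAlgebra.of ℤ G a * x).coeff g = _
    rw [MonoidAlgebra.of_apply, MonoidAlgebra.coeff_single_mul_eq_mul_coeff (a⁻¹ * g)
      (fun m' _ => eq_inv_mul_iff_mul_eq.symm), one_mul]
  refine ⟨θ, fun x => ?_⟩
  ext g
  rw [MonoidAlgebra.coeff_sum, Finsupp.finsetSum_apply]
  obtain ⟨j0, hj0, hg⟩ : ∃ j0 < orderOf h, h ^ j0 * ρ g = g := by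
    have h1 := (hf.mem_zpowers_iff_mem_range_orderOf).1 (hρ g)
    rw [Finset.mem_image] at h1
    obtain ⟨j, hj, h2⟩ := h1
    refine ⟨j, Finset.mem_range.1 hj, ?_⟩
    rw [h2, inv_mul_cancel_right]
  have h1 : ∀ j ∈ Finset.range (orderOf h), (tr (h ^ j) (θ (tr (h ^ j)⁻¹ x))).coeff g
      = if j = j0 then x.coeff g else 0 := by
    intro j hj
    rw [htr, hθ, htr, inv_inv, mul_inv_cancel_left]
    have h2 : ρ ((h ^ j)⁻¹ * g) = ρ g := by
      have h3 := hρ2 j ((h ^ j)⁻¹ * g)
      rw [mul_inv_cancel_left] at h3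
      exact h3.symm
    rw [h2]
    by_cases hjj : j = j0
    · rw [if_pos hjj, if_pos]
      rw [eq_inv_mul_iff_mul_eq, hjj]
      exact hg
    · rw [if_neg hjj, if_neg]
      intro h3
      rw [eq_inv_mul_iff_mul_eq] at h3
      have h4 : h ^ j = h ^ j0 := mul_right_cancel (h3.trans hg.symm)
      exact hjj (pow_injOn_Iio_orderOf (Set.mem_Iio.2 (Finset.mem_range.1 hj))
        (Set.mem_Iio.2 hj0) h4)
  rw [Finset.sum_congr rfl h1, Finset.sum_ite_eq', if_pos (Finset.mem_range.2 hj0)]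

theorem Th_pi {h : G} {k : ℕ} (n : ℕ) (hT : Th h k (MonoidAlgebra ℤ G)) :
    Th h k (Fin n → MonoidAlgebra ℤ G) := by
  obtain ⟨θ, hθ⟩ := hT
  refine ⟨{ toFun := fun x i => θ (x i)
            map_zero' := by funext i; exact map_zero θ
            map_add' := by intro x y; funext i; exact map_add θ _ _ }, fun x => ?_⟩
  funext i
  rw [Finset.sum_apply]
  exact hθ (x i)

theorem Th_retract {h : G} {k : ℕ} {M P : Type} [AddCommGroup M] [Module (MonoidAlgebra ℤ G) M]
    [AddCommGroup P] [Module (MonoidAlgebra ℤ G) P] (f : M →ₗ[MonoidAlgebra ℤ G] P)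
    (g : P →ₗ[MonoidAlgebra ℤ G] M) (hfg : ∀ p, f (g p) = p) (hT : Th h k M) : Th h k P := by
  obtain ⟨θ, hθ⟩ := hT
  refine ⟨(f.toAddMonoidHom.comp θ).comp g.toAddMonoidHom, fun x => ?_⟩
  have h1 : ∀ j ∈ Finset.range k, tr (h ^ j) (((f.toAddMonoidHom.comp θ).comp g.toAddMonoidHom)
      (tr (h ^ j)⁻¹ x)) = f (tr (h ^ j) (θ (tr (h ^ j)⁻¹ (g x)))) := by
    intro j _
    rw [map_tr]
    change tr (h ^ j) (f (θ (g (tr (h ^ j)⁻¹ x)))) = _
    rw [map_tr]
  rw [Finset.sum_congr rfl h1, ← map_sum, hθ, hfg]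

theorem Ac_projective {h : G} (hf : IsOfFinOrder h) (P : Type) [AddCommGroup P]
    [Module (MonoidAlgebra ℤ G) P] (h1 : Module.Finite (MonoidAlgebra ℤ G) P)
    (h2 : Module.Projective (MonoidAlgebra ℤ G) P) : Ac h (orderOf h) P := by
  obtain ⟨n, f, hf'⟩ := Module.Finite.exists_fin' (MonoidAlgebra ℤ G) P
  obtain ⟨g, hg⟩ := Module.projective_lifting_property f LinearMap.id hf'
  exact Ac_of_Th (pow_orderOf_eq_one h) (Th_retract f g (fun p => LinearMap.congr_fun hg p)
    (Th_pi n (Th_group hf)))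

theorem Ac_chain {h : G} {k : ℕ} (hk : h ^ k = 1) (P : ℕ → Type) [∀ i, AddCommGroup (P i)]
    [∀ i, Module (MonoidAlgebra ℤ G) (P i)]
    (d : ∀ i, P (i + 1) →ₗ[MonoidAlgebra ℤ G] P i) (n : ℕ) (hac : ∀ i, Ac h k (P i))
    (hz : ∀ i, n < i → Subsingleton (P i))
    (hex : ∀ i, LinearMap.range (d (i + 1)) = LinearMap.ker (d i)) :
    ∀ j i : ℕ, n ≤ i + j → Ac h k (LinearMap.range (d i)) := by
  intro j
  induction j with
  | zero =>
    intro i hi
    have h1 : Subsingleton (P (i + 1)) := hz (i + 1) (by omega)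
    have h2 : Subsingleton (LinearMap.range (d i)) := by
      refine ⟨fun x y => ?_⟩
      obtain ⟨x', hx⟩ := x.2
      obtain ⟨y', hy⟩ := y.2
      apply Subtype.ext
      rw [← hx, ← hy, Subsingleton.elim x' y']
    exact ⟨fun x _ => ⟨0, Subsingleton.elim _ _⟩, fun x _ => ⟨0, Subsingleton.elim _ _⟩⟩
  | succ j ih =>
    intro i hi
    refine Ac_quot hk (d i).rangeRestrict (LinearMap.surjective_rangeRestrict _) ?_ (hac (i + 1))
    rw [LinearMap.ker_rangeRestrict, ← hex i]
    exact ih (i + 1) (by omega)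

/-- groups of type FP are torsion-free -/
theorem torsionFree_of_FP (hG : FP G) : TorsionFree G := by
  intro h k hk0 hk1
  by_contra hne
  have hfin : IsOfFinOrder h := isOfFinOrder_iff_pow_eq_one.2 ⟨k, hk0, hk1⟩
  obtain ⟨P, i1, i2, d, ε, n, h1, h2, h3, h4, h5, h6, h7⟩ := hG
  have hac : ∀ i, Ac h (orderOf h) (P i) := fun i => Ac_projective hfin (P i) (h1 i) (h2 i)
  have hord : h ^ orderOf h = 1 := pow_orderOf_eq_one h
  have hd := Ac_chain hord P d n hac h3 h7 n 0 (by omega)
  obtain ⟨b, hb⟩ := h5 1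
  have hε : ∀ (g : G) (x : P 0), ε (tr g x) = ε x := h4
  have ha0 : tr h b - b ∈ LinearMap.range (d 0) := by
    rw [← h6, map_sub, hε, sub_self]
  obtain ⟨a, ha⟩ := hd.2 ⟨tr h b - b, ha0⟩ (by
    apply Subtype.ext
    have h8 : ((nm h (orderOf h) (⟨tr h b - b, ha0⟩ : LinearMap.range (d 0)) :
        LinearMap.range (d 0)) : P 0) = nm h (orderOf h) (tr h b - b) :=
      map_nm (LinearMap.range (d 0)).subtype _
    rw [h8, nm_sub, nm_tr hord, sub_self]
    rfl)
  have h8 : tr h (b - a) = b - a := by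
    have h9 := congrArg Subtype.val ha
    have h10 : ((tr h a : LinearMap.range (d 0)) : P 0) = tr h (a : P 0) :=
      map_tr (LinearMap.range (d 0)).subtype h a
    have h11 : tr h (a : P 0) - a = tr h b - b := by
      rw [← h10]
      exact h9
    rw [tr_sub, sub_eq_sub_iff_sub_eq_sub]
    exact h11.symm
  obtain ⟨y, hy⟩ := (hac 0).1 _ h8
  have h9 : ε (nm h (orderOf h) y) = (orderOf h : ℤ) * ε y := by
    unfold nm
    rw [map_sum, Finset.sum_congr rfl fun j _ => hε (h ^ j) y, Finset.sum_const,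
      Finset.card_range, nsmul_eq_mul]
  have h10 : ε (b - a) = 1 := by
    rw [map_sub, hb, (h6 a).2 a.2, sub_zero]
  rw [← hy, h9] at h10
  have h11 : orderOf h = 1 := by
    have h12 := Int.isUnit_iff.1 (IsUnit.of_mul_eq_one _ h10)
    omega
  exact hne (orderOf_eq_one_iff.1 h11)

end Pool.Agent.V8H47.MG
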